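import Pool.Agent.H987.Y.StA
import Pool.Agent.H784.Z987.Mom

/-! Measurability of Green functions (leaf Y-K3 of helper987, written by helper800). -/

set_option autoImplicit false
set_option linter.unusedSectionVars false
set_option linter.deprecated false

open scoped BigOperators InnerProductSpace Topology
open Filter MeasureTheory

namespace Pool.Agent.H800.Y987

open Pool.Agent.Y662.TR (LL Cf Mw dv hu norm_dv ll_coord add_coord smul_coord)
open Pool.Agent.TH369.AN (Rz rz_eq rz_norm rz_uniq)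
open Pool.Agent.H987.Z (Rs Gr)
open Pool.Agent.H987.Y
open Pool.Agent.H784.Z987 (EE EE_apply EE_iter EE_pow_norm)

variable {ι : Type}

theorem sum_coord (m : ℕ) (f : ℕ → LL ι) (x : ι) :
    (∑ k ∈ Finset.range m, f k : LL ι) x = ∑ k ∈ Finset.range m, f k x := by
  induction m with
  | zero => simp
  | succ m ih => rw [Finset.sum_range_succ, Finset.sum_range_succ, add_coord, ih]

/-- the Green function as a limit of polynomials in the operator -/
theorem gr_lim (T : LL ι →L[ℂ] LL ι) (hT : IsSelfAdjoint T) (h : ℝ) (hh : ‖T‖ ≤ h) (z : ℂ)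
    (hz : 0 < z.im) (x y : ι) :
    Tendsto (fun n : ℕ => (Complex.I / (((h + ‖z‖) ^ 2 / z.im : ℝ) : ℂ)) *
      ∑ k ∈ Finset.range n, (EE T z ((h + ‖z‖) ^ 2 / z.im) ^ k) (dv y) x) atTop
      (𝓝 (Gr T z x y)) := by
  have hh0 : 0 ≤ h := (norm_nonneg _).trans hh
  have hzn : z.im ≤ ‖z‖ := (le_abs_self _).trans (Complex.abs_im_le_norm z)
  set c : ℝ := h + ‖z‖ with hc
  have hc0 : 0 < c := by linarith
  have hθc : z.im ≤ c := by linarith
  set q : ℝ := Real.sqrt (1 - z.im ^ 2 / c ^ 2) with hq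
  have hq0 : 0 ≤ q := Real.sqrt_nonneg _
  have hq1 : q < 1 := by
    rw [hq, Real.sqrt_lt' one_pos]
    have : 0 < z.im ^ 2 / c ^ 2 := by positivity
    linarith
  have hq2 : 1 - z.im ^ 2 / c ^ 2 ≤ q ^ 2 := by
    rw [hq, Real.sq_sqrt]
    have : z.im ^ 2 / c ^ 2 ≤ 1 := by
      rw [div_le_one (by positivity)]
      exact pow_le_pow_left₀ hz.le hθc 2
    linarith
  have hb : ∀ u, ‖T u - z • u‖ ≤ c * ‖u‖ := by
    intro u
    calc ‖T u - z • u‖ ≤ ‖T u‖ + ‖z • u‖ := norm_sub_le _ _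
      _ ≤ h * ‖u‖ + ‖z‖ * ‖u‖ := by
        apply add_le_add
        · exact (T.le_opNorm u).trans (mul_le_mul_of_nonneg_right hh (norm_nonneg _))
        · rw [norm_smul]
      _ = c * ‖u‖ := by rw [hc]; ring
  set u : LL ι := Rz T z (dv y) with hu
  have h1 : T u - z • u = dv y := rz_eq T hT z hz.ne' (dv y)
  have h4 : ∀ n : ℕ, Gr T z x y = (EE T z (c ^ 2 / z.im) ^ n) u x +
      (Complex.I / ((c ^ 2 / z.im : ℝ) : ℂ)) *
        ∑ k ∈ Finset.range n, (EE T z (c ^ 2 / z.im) ^ k) (dv y) x := by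
    intro n
    have h2 := EE_iter T z (c ^ 2 / z.im) u (dv y) h1 n
    rw [← sum_coord n (fun k => (EE T z (c ^ 2 / z.im) ^ k) (dv y)), ← smul_coord, ← add_coord,
      ← h2]
    rfl
  have h5 : Tendsto (fun n : ℕ => (EE T z (c ^ 2 / z.im) ^ n) u x) atTop (𝓝 0) := by
    have h6 : Tendsto (fun n : ℕ => q ^ n * ‖u‖) atTop (𝓝 0) := by
      have := (tendsto_pow_atTop_nhds_zero_of_lt_one hq0 hq1).mul_const ‖u‖
      simpa using this
    apply squeeze_zero_norm _ h6
    intro n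
    exact (ll_coord _ x).trans (EE_pow_norm T hT z z.im c q hz hc0 hq0 hq2 le_rfl hb n u)
  have h6 : (fun n : ℕ => (Complex.I / ((c ^ 2 / z.im : ℝ) : ℂ)) *
        ∑ k ∈ Finset.range n, (EE T z (c ^ 2 / z.im) ^ k) (dv y) x) =
      fun n : ℕ => Gr T z x y - (EE T z (c ^ 2 / z.im) ^ n) u x := by
    funext n
    rw [h4 n]
    ring
  rw [h6]
  simpa using (tendsto_const_nhds (x := Gr T z x y)).sub h5

theorem gr_neg (T : LL ι →L[ℂ] LL ι) (hT : IsSelfAdjoint T) (z : ℂ) (hz : z.im ≠ 0) (x y : ι) :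
    Gr T z x y = -Gr (-T) (-z) x y := by
  unfold Gr
  have h1 := rz_eq T hT z hz (dv y)
  have h2 : (-T) (-(Rz T z (dv y))) - (-z) • (-(Rz T z (dv y))) = dv y := by
    rw [ContinuousLinearMap.neg_apply, map_neg, neg_neg, neg_smul, smul_neg, neg_neg]
    exact h1
  have h3 := rz_uniq (-T) hT.neg (-z) (by simpa using hz) _ _ h2
  rw [← h3]
  show _ = -((-(Rz T z (dv y)) : LL ι) x)
  rw [lp.coeFn_neg, Pi.neg_apply, neg_neg]

/-- measurability in terms of the action on measurable vectors -/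
theorem gr_meas_pos {Ω : Type} [MeasurableSpace Ω] (T : Ω → (LL ι →L[ℂ] LL ι))
    (hT : ∀ ω, IsSelfAdjoint (T ω)) (h : ℝ) (hh : ∀ ω, ‖T ω‖ ≤ h)
    (hA : ∀ v : Ω → LL ι, (∀ x, Measurable fun ω => v ω x) →
      ∀ x, Measurable fun ω => T ω (v ω) x)
    (z : ℂ) (hz : 0 < z.im) (x y : ι) : Measurable fun ω => Gr (T ω) z x y := by
  set s : ℝ := (h + ‖z‖) ^ 2 / z.im with hs
  have h1 : ∀ (k : ℕ) (x : ι), Measurable fun ω => (EE (T ω) z s ^ k) (dv y) x := by
    intro k
    induction k with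
    | zero => intro x; simp
    | succ k ih =>
      intro x
      have h2 := hA (fun ω => (EE (T ω) z s ^ k) (dv y)) ih x
      have h3 : (fun ω => (EE (T ω) z s ^ (k + 1)) (dv y) x) = fun ω =>
          (EE (T ω) z s ^ k) (dv y) x - (Complex.I / s) *
            (T ω ((EE (T ω) z s ^ k) (dv y)) x - z * (EE (T ω) z s ^ k) (dv y) x) := by
        funext ω
        rw [pow_succ', ContinuousLinearMap.mul_apply, EE_apply]
        rfl
      rw [h3]
      exact (ih x).sub ((h2.sub ((ih x).const_mul z)).const_mul _)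
  refine measurable_of_tendsto_metrizable (f := fun (n : ℕ) ω => (Complex.I / (s : ℂ)) *
      ∑ k ∈ Finset.range n, (EE (T ω) z s ^ k) (dv y) x) ?_ ?_
  · intro n
    exact (Finset.measurable_sum _ fun k _ => h1 k x).const_mul _
  · rw [tendsto_pi_nhds]
    intro ω
    exact gr_lim (T ω) (hT ω) h (hh ω) z hz x y

theorem gr_meas {Ω : Type} [MeasurableSpace Ω] (T : Ω → (LL ι →L[ℂ] LL ι))
    (hT : ∀ ω, IsSelfAdjoint (T ω)) (h : ℝ) (hh : ∀ ω, ‖T ω‖ ≤ h)
    (hA : ∀ v : Ω → LL ι, (∀ x, Measurable fun ω => v ω x) →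
      ∀ x, Measurable fun ω => T ω (v ω) x)
    (z : ℂ) (hz : z.im ≠ 0) (x y : ι) : Measurable fun ω => Gr (T ω) z x y := by
  rcases lt_or_gt_of_ne hz with h0 | h0
  · have h1 : (fun ω => Gr (T ω) z x y) = fun ω => -Gr (-(T ω)) (-z) x y := by
      funext ω
      exact gr_neg (T ω) (hT ω) z hz x y
    rw [h1]
    refine (gr_meas_pos (fun ω => -(T ω)) (fun ω => (hT ω).neg) h (fun ω => ?_) ?_ (-z)
      (by simpa using h0) x y).neg
    · rw [norm_neg]; exact hh ω
    · intro v hv x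
      have h2 := hA v hv x
      have h3 : (fun ω => (-(T ω)) (v ω) x) = fun ω => -(T ω (v ω) x) := by
        funext ω
        rfl
      rw [h3]
      exact h2.neg
  · exact gr_meas_pos T hT h hh hA z h0 x y

/-- **K3** -/
theorem meas (h1 : S_op) : S_meas := by
  intro ι Ω _ _ k h hk hm z x y hz
  apply gr_meas (fun ω => Op (k ω)) (fun ω => (h1 ι (k ω) h (hk ω)).2.2.1.sa) h
    (fun ω => (h1 ι (k ω) h (hk ω)).2.1) _ z hz x y
  intro v hv x
  have h2 : (fun ω => Op (k ω) (v ω) x) = fun ω => ∑' y, ((k ω x y : ℝ) : ℂ) * v ω y := by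
    funext ω
    exact ((h1 ι (k ω) h (hk ω)).1 (v ω) x).2
  rw [h2]
  apply Measurable.tsum
  intro y
  exact (Complex.measurable_ofReal.comp (hm x y)).mul (hv y)

end Pool.Agent.H800.Y987
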